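import Pool.Agent.Y517.NT.Ch

/-!
# NT2-CHART: forms and endomorphisms read in a chart
-/

set_option autoImplicit false

open Set Filter Topology MeasureTheory
open scoped Manifold ContDiff

noncomputable section

namespace Pool.Agent.Y340.NT

open Pool.Agent.Y501.SY Pool.Agent.Y517.NT

/-- the derivative of the inverse of a chart, as a map of the model space -/
def Sf {d : ℕ} {X : Type} [TopologicalSpace X] [ChartedSpace (E d) X] (x₀ : X) (z : E d) :
    E d →L[ℝ] E d := mfderiv (𝓡 d) (𝓡 d) (chartAt (E d) x₀).symm z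

/-- the derivative of a chart, as a map of the model space -/
def Df {d : ℕ} {X : Type} [TopologicalSpace X] [ChartedSpace (E d) X] (x₀ x : X) :
    E d →L[ℝ] E d := mfderiv (𝓡 d) (𝓡 d) (chartAt (E d) x₀) x

/-- the endomorphism, as a map of the model space -/
def Jf {d : ℕ} {X : Type} [TopologicalSpace X] [ChartedSpace (E d) X] (J : End d X) (x : X) :
    E d →L[ℝ] E d := J x

theorem t_CHART : S_CHART := by
  intro d X _ _ _ J σ x₀ q hq
  have hcd : (chartAt (E d) x₀).MDifferentiable (𝓡 d) (𝓡 d) := mdifferentiable_chart (I := 𝓡 d) x₀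
  obtain ⟨p, hp, hqp⟩ : ∃ p ∈ (chartAt (E d) x₀).target, q = (chartAt (E d) x₀).symm p :=
    ⟨chartAt (E d) x₀ q, (chartAt (E d) x₀).map_source hq, ((chartAt (E d) x₀).left_inv hq).symm⟩
  subst hqp
  have hr : chartAt (E d) x₀ ((chartAt (E d) x₀).symm p) = p := (chartAt (E d) x₀).right_inv hp
  have eS : Sf x₀ (chartAt (E d) x₀ ((chartAt (E d) x₀).symm p)) = Sf x₀ p := congrArg (Sf x₀) hr
  have h1 : ∀ v : E d, Sf x₀ p (Df x₀ ((chartAt (E d) x₀).symm p) v) = v := by
    intro v
    have h := hcd.symm_comp_deriv ((chartAt (E d) x₀).map_target hp)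
    have h' := congrArg (fun L : E d →L[ℝ] E d => L v) h
    rw [← eS]
    exact h'
  have h2 : ∀ u : E d, Df x₀ ((chartAt (E d) x₀).symm p) (Sf x₀ p u) = u := by
    intro u
    have h := hcd.comp_symm_deriv hp
    exact congrArg (fun L : E d →L[ℝ] E d => L u) h
  have hJ : inChart J x₀ (chartAt (E d) x₀ ((chartAt (E d) x₀).symm p)) = inChart J x₀ p := by rw [hr]
  have hP : pb (chartAt (E d) x₀).symm σ (chartAt (E d) x₀ ((chartAt (E d) x₀).symm p)) =
      pb (chartAt (E d) x₀).symm σ p := by rw [hr]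
  refine ⟨fun (v : E d) => ?_, fun (v : E d) (w : E d) => ?_, fun u => ⟨Sf x₀ p u, h2 u⟩,
    fun (v : E d) hv h0 => hv ?_⟩
  · rw [hJ]
    exact congrArg (fun z => Df x₀ ((chartAt (E d) x₀).symm p) (Jf J ((chartAt (E d) x₀).symm p) z)) (h1 v)
  · rw [hP]
    have h4 : (fun i => Sf x₀ p ((![Df x₀ ((chartAt (E d) x₀).symm p) v,
        Df x₀ ((chartAt (E d) x₀).symm p) w] : Fin 2 → E d) i)) = ![v, w] := by
      funext i
      fin_cases i
      · exact h1 v
      · exact h1 w
    exact congrArg (fun f : Fin 2 → E d => σ ((chartAt (E d) x₀).symm p) f) h4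
  · have h3 : Df x₀ ((chartAt (E d) x₀).symm p) v = 0 := h0
    have h4 := h1 v
    rw [h3, map_zero] at h4
    exact h4.symm

end Pool.Agent.Y340.NT
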